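import Mathlib

/-!
# An amenable group with infinitely many extremal densities
-/

set_option autoImplicit false

namespace Pool.Agent.Results.MP_5c8a88_co.InfinitelyMany

open Classical in
/-- The point mass at `x`. -/
noncomputable def pointMass {G : Type*} (x : G) : Set G → ℝ := fun A => if x ∈ A then 1 else 0

/-- `ν` is a measure: a monotone map to `[0,1]` with `ν ∅ = 0`, `ν G = 1` which is finitely additive
on disjoint sets. -/
structure IsMeasure {G : Type*} (ν : Set G → ℝ) : Prop where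
  nonneg : ∀ A, 0 ≤ ν A
  le_one : ∀ A, ν A ≤ 1
  mono : ∀ A B, A ⊆ B → ν A ≤ ν B
  empty : ν ∅ = 0
  univ : ν Set.univ = 1
  add : ∀ A B, Disjoint A B → ν (A ∪ B) = ν A + ν B

/-- `P(G)`. -/
def P (G : Type*) : Set (Set G → ℝ) := {ν | IsMeasure ν}

/-- `P_ω(G)`: the finite convex combinations of point masses. -/
def Pomega (G : Type*) : Set (Set G → ℝ) :=
  {ν | ∃ c : G →₀ ℝ, (∀ g, 0 ≤ c g) ∧ ∑ g ∈ c.support, c g = 1 ∧
    ν = fun A => ∑ g ∈ c.support, c g * pointMass g A}

/-- `P_u(G)`: the uniform measures on the finite nonempty sets. -/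
def Pu (G : Type*) : Set (Set G → ℝ) :=
  {ν | ∃ F : Finset G, F.Nonempty ∧ ν = fun A => (F.card : ℝ)⁻¹ * ∑ g ∈ F, pointMass g A}

section group

variable {G : Type*} [Group G]

/-- The set `g⁻¹ A`. -/
def transl (g : G) (A : Set G) : Set G := {x | g * x ∈ A}

/-- The product `(lam * ν)(A) = ∑ c_j ν(g_j⁻¹ A)` for `lam = ∑ c_j δ_{g_j} ∈ P_ω(G)`. -/
noncomputable def conv (lam ν : Set G → ℝ) : Set G → ℝ :=
  fun A => ∑ᶠ g, lam {g} * ν (transl g A)

/-- The product of a nonempty list of set functions. -/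
noncomputable def prodList : List (Set G → ℝ) → (Set G → ℝ)
  | [] => pointMass 1
  | [ν] => ν
  | ν :: ν' :: l => conv ν (prodList (ν' :: l))

end group

/-- The five letters. -/
inductive Letter
  | u | i | s | I | S

/-- The operator named by a letter, acting on a functional of a measure variable. -/
noncomputable def Letter.op (G : Type*) : Letter → ((Set G → ℝ) → ℝ) → ℝ
  | Letter.u, F => ⨅ ν : Pu G, F ν
  | Letter.i, F => ⨅ ν : Pomega G, F ν
  | Letter.I, F => ⨅ ν : P G, F ν
  | Letter.s, F => ⨆ ν : Pomega G, F ν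
  | Letter.S, F => ⨆ ν : P G, F ν

/-- The operators of `e 0, e 1, …` are applied to the variables `ν 0, ν 1, …` of `F`, the first one
being the outermost. -/
noncomputable def applyWord (G : Type*) : (n : ℕ) → (Fin n → Letter) →
    ((Fin n → (Set G → ℝ)) → ℝ) → ℝ
  | 0, _, F => F (fun j => j.elim0)
  | n + 1, e, F => (e 0).op G fun ν =>
      applyWord G n (fun j => e j.succ) fun νs => F (Fin.cons ν νs)

/-- The extremal density `e_s`. -/
noncomputable def extremalDensity {G : Type*} [Group G] {n : ℕ} (e : Fin n → Letter)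
    (s : Equiv.Perm (Fin n)) : Set G → ℝ :=
  fun A => applyWord G n e fun ν => prodList (List.ofFn fun j => ν (s j)) A

/-- `𝓔(G)`: all extremal densities on `G`; the letters `I`, `S` may occur only at the position
`s(n)`. -/
def extremalDensities (G : Type*) [Group G] : Set (Set G → ℝ) :=
  {f | ∃ (n : ℕ) (e : Fin (n + 1) → Letter) (s : Equiv.Perm (Fin (n + 1))),
    (∀ j, e j = Letter.I ∨ e j = Letter.S → j = s (Fin.last n)) ∧ f = extremalDensity e s}

/-- `G` is amenable: some measure in `P(G)` is invariant under left translations. -/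
def IsAmenable (G : Type*) [Group G] : Prop :=
  ∃ μ ∈ P G, ∀ (g : G) (A : Set G), μ ((fun x => g * x) '' A) = μ A

/-! ### Measures in `P_ω` -/

section basic

variable {G : Type*}

/-- Integration of a function against a finitely supported measure. -/
noncomputable def integ (ν : Set G → ℝ) (f : G → ℝ) : ℝ := ∑ᶠ g, ν {g} * f g

theorem sum_pointMass_singleton (c : G →₀ ℝ) (g : G) :
    (∑ x ∈ c.support, c x * pointMass x {g}) = c g := by
  classical
  have : ∀ x ∈ c.support, c x * pointMass x {g} = if x = g then c g else 0 := by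
    intro x _
    unfold pointMass
    by_cases hx : x = g
    · subst hx; simp
    · simp [hx]
  rw [Finset.sum_congr rfl this, Finset.sum_ite_eq']
  by_cases hg : g ∈ c.support
  · simp [hg]
  · simp [hg, Finsupp.notMem_support_iff.mp hg]

theorem integ_finsupp (c : G →₀ ℝ) (f : G → ℝ) :
    integ (fun A => ∑ g ∈ c.support, c g * pointMass g A) f = ∑ g ∈ c.support, c g * f g := by
  unfold integ
  simp only [sum_pointMass_singleton]
  rw [finsum_eq_sum_of_support_subset]
  intro g hg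
  rw [Function.mem_support] at hg
  rw [Finset.mem_coe, Finsupp.mem_support_iff]
  intro h
  exact hg (by rw [h, zero_mul])

theorem integ_eq {ν : Set G → ℝ} (hν : ν ∈ Pomega G) : ∃ (S : Finset G) (c : G → ℝ),
    (∀ g, 0 ≤ c g) ∧ ∑ g ∈ S, c g = 1 ∧ ∀ f, integ ν f = ∑ g ∈ S, c g * f g := by
  obtain ⟨c, h1, h2, rfl⟩ := hν
  exact ⟨c.support, c, h1, h2, integ_finsupp c⟩

theorem pointMass_mem (x : G) : pointMass x ∈ Pomega G := by
  classical
  refine ⟨Finsupp.single x 1, ?_, ?_, ?_⟩
  · intro g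
    rw [Finsupp.single_apply]
    split_ifs <;> norm_num
  · rw [Finsupp.support_single _ one_ne_zero]
    simp
  · funext A
    rw [Finsupp.support_single _ one_ne_zero]
    simp

theorem integ_pointMass (x : G) (f : G → ℝ) : integ (pointMass x) f = f x := by
  unfold integ pointMass
  rw [finsum_eq_single _ x]
  · simp
  · intro y hy
    simp [Ne.symm hy]

/-- `integ ν` of the indicator function of a set is the measure of the set. -/
theorem integ_indicator {ν : Set G → ℝ} (hν : ν ∈ Pomega G) (A : Set G) :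
    integ ν (fun g => pointMass g A) = ν A := by
  obtain ⟨c, h1, h2, rfl⟩ := hν
  exact integ_finsupp c _

theorem uniform_mem (F : Finset G) (hF : F.Nonempty) :
    ∃ ν ∈ Pomega G, ∀ f, integ ν f = (F.card : ℝ)⁻¹ * ∑ g ∈ F, f g := by
  classical
  have hc : (F.card : ℝ) ≠ 0 := by
    exact_mod_cast Finset.card_ne_zero.mpr hF
  set c : G →₀ ℝ := Finsupp.onFinset F (fun g => if g ∈ F then (F.card : ℝ)⁻¹ else 0)
    (by intro g hg; by_contra h; exact hg (by simp [h])) with hcdef
  have hsupp : c.support = F := by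
    ext g
    rw [Finsupp.mem_support_iff, hcdef, Finsupp.onFinset_apply]
    by_cases hg : g ∈ F
    · simp only [hg, if_true, iff_true]
      exact inv_ne_zero hc
    · simp [hg]
  have happ : ∀ g ∈ F, c g = (F.card : ℝ)⁻¹ := by
    intro g hg
    rw [hcdef, Finsupp.onFinset_apply, if_pos hg]
  refine ⟨_, ⟨c, ?_, ?_, rfl⟩, fun f => ?_⟩
  · intro g
    rw [hcdef, Finsupp.onFinset_apply]
    split_ifs
    · positivity
    · exact le_rfl
  · rw [hsupp, Finset.sum_congr rfl happ, Finset.sum_const, nsmul_eq_mul]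
    exact mul_inv_cancel₀ hc
  · rw [integ_finsupp, hsupp, Finset.mul_sum]
    exact Finset.sum_congr rfl fun g hg => by rw [happ g hg]

theorem pointMass_nonneg (x : G) (A : Set G) : 0 ≤ pointMass x A := by
  unfold pointMass
  split_ifs <;> norm_num

theorem pointMass_le_one (x : G) (A : Set G) : pointMass x A ≤ 1 := by
  unfold pointMass
  split_ifs <;> norm_num

theorem pointMass_of_mem {x : G} {A : Set G} (h : x ∈ A) : pointMass x A = 1 := by
  unfold pointMass
  rw [if_pos h]

theorem pointMass_of_notMem {x : G} {A : Set G} (h : x ∉ A) : pointMass x A = 0 := by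
  unfold pointMass
  rw [if_neg h]

theorem pointMass_le {H : Type*} {x : G} {y : H} {A : Set G} {B : Set H} (h : x ∈ A → y ∈ B) :
    pointMass x A ≤ pointMass y B := by
  by_cases hx : x ∈ A
  · rw [pointMass_of_mem hx, pointMass_of_mem (h hx)]
  · rw [pointMass_of_notMem hx]
    exact pointMass_nonneg _ _

theorem pointMass_congr {H : Type*} {x : G} {y : H} {A : Set G} {B : Set H}
    (h : x ∈ A ↔ y ∈ B) : pointMass x A = pointMass y B :=
  le_antisymm (pointMass_le h.mp) (pointMass_le h.mpr)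

end basic

/-! ### States and the value of the game -/

section states

variable {G : Type}

/-- Finite convex combinations of evaluations at points of `X`. -/
def IsStateIn (X : Set G) (T : (G → ℝ) → ℝ) : Prop :=
  ∃ (ι : Type) (_ : Fintype ι) (t : ι → ℝ) (x : ι → G), (∀ i, 0 ≤ t i) ∧ ∑ i, t i = 1 ∧
    (∀ i, x i ∈ X) ∧ ∀ f, T f = ∑ i, t i * f (x i)

theorem IsStateIn.mono_fun {X : Set G} {T : (G → ℝ) → ℝ} (hT : IsStateIn X T) {f f' : G → ℝ}
    (h : ∀ u, f u ≤ f' u) : T f ≤ T f' := by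
  obtain ⟨ι, hι, t, x, h1, h2, h3, h4⟩ := hT
  rw [h4, h4]
  exact Finset.sum_le_sum fun i _ => mul_le_mul_of_nonneg_left (h _) (h1 i)

theorem IsStateIn.const {X : Set G} {T : (G → ℝ) → ℝ} (hT : IsStateIn X T) (a : ℝ) :
    T (fun _ => a) = a := by
  obtain ⟨ι, hι, t, x, h1, h2, h3, h4⟩ := hT
  rw [h4, ← Finset.sum_mul, h2, one_mul]

theorem IsStateIn.univ {X : Set G} {T : (G → ℝ) → ℝ} (hT : IsStateIn X T) :
    IsStateIn Set.univ T := by
  obtain ⟨ι, hι, t, x, h1, h2, h3, h4⟩ := hT
  exact ⟨ι, hι, t, x, h1, h2, fun _ => trivial, h4⟩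

end states

section game

variable {G : Type} [Group G]

instance : Nonempty (Pomega G) := ⟨⟨pointMass 1, pointMass_mem 1⟩⟩

theorem conv_eq (lam ν : Set G → ℝ) (A : Set G) :
    conv lam ν A = integ lam (fun g => ν (transl g A)) := rfl

theorem conv_pointMass_one {ν : Set G → ℝ} (hν : ν ∈ Pomega G) : conv ν (pointMass 1) = ν := by
  funext A
  rw [conv_eq, ← integ_indicator hν A]
  congr 1
  funext g
  exact pointMass_congr (by show g * 1 ∈ A ↔ g ∈ A; rw [mul_one])

/-- One round: the functional of the product `T * w * lam`. -/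
noncomputable def step (T : (G → ℝ) → ℝ) (w lam : Set G → ℝ) : (G → ℝ) → ℝ :=
  fun f => T fun u => integ w fun a => integ lam fun g => f (u * a * g)

/-- The value of the game with `r` rounds to go. -/
noncomputable def val (A : Set G) : ℕ → ((G → ℝ) → ℝ) → ℝ
  | 0, T => T fun u => pointMass u A
  | r + 1, T => ⨅ lam : Pomega G, ⨆ w : Pomega G, val A r (step T w lam)

theorem step_state' {X Y Z X' : Set G} {T : (G → ℝ) → ℝ} (hT : IsStateIn X T)
    {w lam : Set G → ℝ} {Sw Sl : Finset G} {cw cl : G → ℝ}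
    (hw0 : ∀ g, 0 ≤ cw g) (hw1 : ∑ g ∈ Sw, cw g = 1) (hw : ∀ f, integ w f = ∑ g ∈ Sw, cw g * f g)
    (hwY : ∀ g ∈ Sw, g ∈ Y)
    (hl0 : ∀ g, 0 ≤ cl g) (hl1 : ∑ g ∈ Sl, cl g = 1)
    (hl : ∀ f, integ lam f = ∑ g ∈ Sl, cl g * f g) (hlZ : ∀ g ∈ Sl, g ∈ Z)
    (hX : ∀ x ∈ X, ∀ a ∈ Y, ∀ g ∈ Z, x * a * g ∈ X') : IsStateIn X' (step T w lam) := by
  classical
  obtain ⟨ι, hι, t, x, h1, h2, h3, h4⟩ := hT
  refine ⟨ι × Sw × Sl, inferInstance, fun i => t i.1 * (cw i.2.1 * cl i.2.2),
    fun i => x i.1 * i.2.1 * i.2.2, ?_, ?_, ?_, ?_⟩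
  · intro i
    exact mul_nonneg (h1 _) (mul_nonneg (hw0 _) (hl0 _))
  · rw [Fintype.sum_prod_type]
    simp_rw [← Finset.mul_sum]
    rw [← Finset.sum_mul, h2, one_mul, Fintype.sum_prod_type]
    simp_rw [← Finset.mul_sum]
    rw [← Finset.sum_mul, Finset.sum_coe_sort Sw cw, Finset.sum_coe_sort Sl cl, hw1, hl1, one_mul]
  · intro i
    exact hX _ (h3 _) _ (hwY _ i.2.1.2) _ (hlZ _ i.2.2.2)
  · intro f
    unfold step
    rw [h4, Fintype.sum_prod_type]
    apply Finset.sum_congr rfl
    intro i _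
    rw [hw, Fintype.sum_prod_type, Finset.mul_sum,
      ← Finset.sum_coe_sort Sw (fun a => t i * (cw a * integ lam fun g => f (x i * a * g)))]
    apply Finset.sum_congr rfl
    intro a _
    rw [hl, Finset.mul_sum, Finset.mul_sum,
      ← Finset.sum_coe_sort Sl (fun g => t i * (cw a * (cl g * f (x i * a * g))))]
    apply Finset.sum_congr rfl
    intro g _
    ring

theorem step_state {T : (G → ℝ) → ℝ} (hT : IsStateIn Set.univ T)
    {w lam : Set G → ℝ} (hw : w ∈ Pomega G) (hl : lam ∈ Pomega G) :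
    IsStateIn Set.univ (step T w lam) := by
  obtain ⟨Sw, cw, a1, a2, a3⟩ := integ_eq hw
  obtain ⟨Sl, cl, b1, b2, b3⟩ := integ_eq hl
  exact step_state' hT (Y := Set.univ) (Z := Set.univ) a1 a2 a3 (fun _ _ => trivial) b1 b2 b3
    (fun _ _ => trivial) (fun _ _ _ _ _ _ => trivial)

theorem val_bounds (A : Set G) (r : ℕ) : ∀ T, IsStateIn Set.univ T →
    0 ≤ val A r T ∧ val A r T ≤ 1 := by
  induction r with
  | zero =>
    intro T hT
    constructor
    · rw [← hT.const 0]
      exact hT.mono_fun fun u => pointMass_nonneg u A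
    · rw [← hT.const 1]
      exact hT.mono_fun fun u => pointMass_le_one u A
  | succ r ih =>
    intro T hT
    have hs : ∀ lam w : Pomega G, 0 ≤ val A r (step T w lam) ∧ val A r (step T w lam) ≤ 1 :=
      fun lam w => ih _ (step_state hT w.2 lam.2)
    have hsup : ∀ lam : Pomega G, 0 ≤ (⨆ w : Pomega G, val A r (step T w lam)) ∧
        (⨆ w : Pomega G, val A r (step T w lam)) ≤ 1 := by
      intro lam
      constructor
      · exact Real.iSup_nonneg fun w => (hs lam w).1
      · exact ciSup_le fun w => (hs lam w).2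
    constructor
    · exact Real.iInf_nonneg fun lam => (hsup lam).1
    · obtain ⟨lam⟩ : Nonempty (Pomega G) := inferInstance
      refine le_trans (ciInf_le ⟨0, ?_⟩ lam) (hsup lam).2
      rintro _ ⟨lam', rfl⟩
      exact (hsup lam').1

/-- Upper bound by a choice of the first player. -/
theorem val_succ_le {A : Set G} {r : ℕ} {T : (G → ℝ) → ℝ} (hT : IsStateIn Set.univ T) {δ : ℝ}
    (lam : Pomega G) (h : ∀ w : Pomega G, val A r (step T w lam) ≤ δ) : val A (r + 1) T ≤ δ := by
  have hs : ∀ lam w : Pomega G, 0 ≤ val A r (step T w lam) :=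
    fun lam w => (val_bounds A r _ (step_state hT w.2 lam.2)).1
  refine le_trans (ciInf_le ⟨0, ?_⟩ lam) (ciSup_le h)
  rintro _ ⟨lam', rfl⟩
  exact Real.iSup_nonneg fun w => hs lam' w

/-- Lower bound by a strategy of the second player. -/
theorem le_val_succ {A : Set G} {r : ℕ} {T : (G → ℝ) → ℝ} (hT : IsStateIn Set.univ T) {δ : ℝ}
    (h : ∀ lam : Pomega G, ∃ w : Pomega G, δ ≤ val A r (step T w lam)) : δ ≤ val A (r + 1) T := by
  apply le_ciInf
  intro lam
  obtain ⟨w, hw⟩ := h lam
  refine le_trans hw (le_ciSup (f := fun w : Pomega G => val A r (step T w lam)) ⟨1, ?_⟩ w)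
  rintro _ ⟨w', rfl⟩
  exact (val_bounds A r _ (step_state hT w'.2 lam.2)).2

end game

/-! ### The tower -/

/-- An exhausting chain of finite subgroups `H 0 ≤ K 0 ≤ H 1 ≤ K 1 ≤ …` with elements `y k ∈ K k`
that are in general position to `H k`. -/
structure Tower (G : Type) [Group G] where
  H : ℕ → Subgroup G
  K : ℕ → Subgroup G
  y : ℕ → G
  finH : ∀ k, Finite (H k)
  union : ∀ g, ∃ k, g ∈ H k
  HK : ∀ k, H k ≤ K k
  KH : ∀ k, K k ≤ H (k + 1)
  yK : ∀ k, y k ∈ K k
  yH : ∀ k, y k ∉ H k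
  ymal : ∀ k, ∀ g ∈ H k, (y k)⁻¹ * g * y k ∈ H k → g = 1
  index : ∀ k, (k + 1) * Nat.card (K k) ≤ Nat.card (H (k + 1))

namespace Tower

variable {G : Type} [Group G] (T : Tower G)

theorem mono {j k : ℕ} (h : j ≤ k) : T.H j ≤ T.H k := by
  induction k, h using Nat.le_induction with
  | base => exact le_rfl
  | succ k _ ih => exact ih.trans ((T.HK k).trans (T.KH k))

theorem K_le {j k : ℕ} (h : j < k) : T.K j ≤ T.H k := (T.KH j).trans (T.mono h)

theorem K_le_K {j k : ℕ} (h : j ≤ k) : T.K j ≤ T.K k := by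
  rcases h.lt_or_eq with h | rfl
  · exact (T.K_le h).trans (T.HK k)
  · exact le_rfl

/-- The finite set of the elements of `H k`. -/
noncomputable def F (k : ℕ) : Finset G :=
  have := T.finH k
  (Set.toFinite (T.H k : Set G)).toFinset

theorem mem_F {k : ℕ} {g : G} : g ∈ T.F k ↔ g ∈ T.H k := by
  unfold F
  rw [Set.Finite.mem_toFinset]
  rfl

theorem F_nonempty (k : ℕ) : (T.F k).Nonempty := ⟨1, T.mem_F.mpr (T.H k).one_mem⟩

theorem card_F (k : ℕ) : (T.F k).card = Nat.card (T.H k) := by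
  have := T.finH k
  unfold F
  exact (Nat.card_eq_card_finite_toFinset (Set.toFinite (T.H k : Set G))).symm

theorem finK (k : ℕ) : Finite (T.K k) := by
  have := T.finH (k + 1)
  exact Finite.of_injective _ (Subgroup.inclusion_injective (T.KH k))

/-- A finite set is contained in some `H k` with `k` as large as we like. -/
theorem exists_level (S : Finset G) (m : ℕ) : ∃ k, m ≤ k ∧ ∀ g ∈ S, g ∈ T.H k := by
  classical
  induction S using Finset.induction_on with
  | empty => exact ⟨m, le_rfl, fun g hg => absurd hg (Finset.notMem_empty g)⟩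
  | insert a S _ ih =>
    obtain ⟨k, h1, h2⟩ := ih
    obtain ⟨l, hl⟩ := T.union a
    refine ⟨max k l, le_trans h1 (le_max_left _ _), fun g hg => ?_⟩
    rcases Finset.mem_insert.mp hg with rfl | hg
    · exact T.mono (le_max_right _ _) hl
    · exact T.mono (le_max_left _ _) (h2 g hg)

/-- The products `y n₁ h₁ y n₂ h₂ ⋯ y n_r h_r` with `n₁ < ⋯ < n_r < k` and `h_i ∈ H (n_i)`. -/
def B : ℕ → ℕ → Set G
  | 0, _ => {1}
  | r + 1, k => {x | ∃ j < k, ∃ b ∈ B r j, ∃ h ∈ T.H j, x = b * T.y j * h}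

/-- The union of the sets `B r k`. -/
def A (r : ℕ) : Set G := {x | ∃ k, x ∈ T.B r k}

theorem B_sub_H (r : ℕ) : ∀ k, ∀ x ∈ T.B r k, x ∈ T.H k := by
  induction r with
  | zero =>
    intro k x hx
    rw [Set.mem_singleton_iff.mp hx]
    exact (T.H k).one_mem
  | succ r ih =>
    rintro k x ⟨j, hj, b, hb, h, hh, rfl⟩
    apply T.K_le hj
    exact (T.K j).mul_mem ((T.K j).mul_mem (T.HK j (ih j b hb)) (T.yK j)) (T.HK j hh)

theorem B_sub_K (r : ℕ) {k : ℕ} {x : G} (hx : x ∈ T.B (r + 1) (k + 1)) : x ∈ T.K k := by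
  obtain ⟨j, hj, b, hb, h, hh, rfl⟩ := hx
  apply T.K_le_K (show j ≤ k by omega)
  exact (T.K j).mul_mem ((T.K j).mul_mem (T.HK j (T.B_sub_H r j b hb)) (T.yK j)) (T.HK j hh)

theorem B_mono (r : ℕ) {j k : ℕ} (h : j ≤ k) : T.B r j ⊆ T.B r k := by
  cases r with
  | zero => exact le_rfl
  | succ r =>
    rintro x ⟨i, hi, b, hb, g, hg, rfl⟩
    exact ⟨i, lt_of_lt_of_le hi h, b, hb, g, hg, rfl⟩

/-- The products whose last index is at least `m`. -/
def C (q m : ℕ) : Set G := {x | ∃ j, m ≤ j ∧ ∃ b ∈ T.B q j, ∃ h ∈ T.H j, x = b * T.y j * h}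

theorem A_succ_sub (q m : ℕ) {x : G} (hx : x ∈ T.A (q + 1)) :
    x ∈ T.B (q + 1) m ∨ x ∈ T.C q m := by
  obtain ⟨k, j, hj, b, hb, h, hh, rfl⟩ := hx
  rcases lt_or_ge j m with h1 | h1
  · exact Or.inl ⟨j, h1, b, hb, h, hh, rfl⟩
  · exact Or.inr ⟨j, h1, b, hb, h, hh, rfl⟩

/-- If two left multiples of `z` by elements of `H m` are in `C q m` then the first factors are
related. -/
theorem hit {q m : ℕ} {u u0 z : G} (hu : u ∈ T.H m) (hu0 : u0 ∈ T.H m)
    {j0 : ℕ} (hj0 : m ≤ j0) {b0 h0 : G} (hb0 : b0 ∈ T.B q j0) (hh0 : h0 ∈ T.H j0)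
    (e0 : u0 * z = b0 * T.y j0 * h0) (hz : u * z ∈ T.C q m) : u * (u0⁻¹ * b0) ∈ T.A q := by
  obtain ⟨j, hj, b, hb, h, hh, e⟩ := hz
  have hbH := T.B_sub_H q j b hb
  have hb0H := T.B_sub_H q j0 b0 hb0
  have hjj : j = j0 := by
    rcases lt_trichotomy j j0 with hlt | heq | hlt
    · exfalso
      -- `u z ∈ H j0`, hence `u0 z ∈ H j0`
      have h1 : u * z ∈ T.H j0 := by
        rw [e]
        apply T.K_le hlt
        exact (T.K j).mul_mem ((T.K j).mul_mem (T.HK j hbH) (T.yK j)) (T.HK j hh)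
      have h2 : u0 * z ∈ T.H j0 := by
        have : u0 * z = u0 * u⁻¹ * (u * z) := by group
        rw [this]
        exact (T.H j0).mul_mem ((T.H j0).mul_mem (T.mono hj0 hu0)
          ((T.H j0).inv_mem (T.mono hj0 hu))) h1
      apply T.yH j0
      have : T.y j0 = b0⁻¹ * (u0 * z) * h0⁻¹ := by rw [e0]; group
      rw [this]
      exact (T.H j0).mul_mem ((T.H j0).mul_mem ((T.H j0).inv_mem hb0H) h2) ((T.H j0).inv_mem hh0)
    · exact heq
    · exfalso
      have h1 : u0 * z ∈ T.H j := by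
        rw [e0]
        apply T.K_le hlt
        exact (T.K j0).mul_mem ((T.K j0).mul_mem (T.HK j0 hb0H) (T.yK j0)) (T.HK j0 hh0)
      have h2 : u * z ∈ T.H j := by
        have : u * z = u * u0⁻¹ * (u0 * z) := by group
        rw [this]
        exact (T.H j).mul_mem ((T.H j).mul_mem (T.mono hj hu)
          ((T.H j).inv_mem (T.mono hj hu0))) h1
      apply T.yH j
      have : T.y j = b⁻¹ * (u * z) * h⁻¹ := by rw [e]; group
      rw [this]
      exact (T.H j).mul_mem ((T.H j).mul_mem ((T.H j).inv_mem hbH) h2) ((T.H j).inv_mem hh)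
  subst hjj
  -- now both products end with `y j`
  have h1 : (T.y j)⁻¹ * (b⁻¹ * (u * u0⁻¹) * b0) * T.y j = h * h0⁻¹ := by
    have e1 : u * z = u * u0⁻¹ * (u0 * z) := by group
    rw [e, e0] at e1
    have e2 : h = (T.y j)⁻¹ * b⁻¹ * (u * u0⁻¹ * (b0 * T.y j * h0)) := by
      rw [← e1]; group
    rw [e2]
    group
  have h2 : b⁻¹ * (u * u0⁻¹) * b0 = 1 := by
    apply T.ymal j
    · exact (T.H j).mul_mem ((T.H j).mul_mem ((T.H j).inv_mem hbH)
        ((T.H j).mul_mem (T.mono hj hu) ((T.H j).inv_mem (T.mono hj hu0)))) hb0H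
    · rw [h1]
      exact (T.H j).mul_mem hh ((T.H j).inv_mem hh0)
  have h3 : u * (u0⁻¹ * b0) = b := by
    have : u * (u0⁻¹ * b0) = b * (b⁻¹ * (u * u0⁻¹) * b0) := by group
    rw [this, h2, mul_one]
  rw [h3]
  exact ⟨j, hb⟩

theorem A_zero {x : G} : x ∈ T.A 0 ↔ x = 1 := by
  constructor
  · rintro ⟨k, hk⟩
    exact hk
  · rintro rfl
    exact ⟨0, rfl⟩

/-- Averages over `F m` of sums of point masses. -/
theorem step_le {S : (G → ℝ) → ℝ} {ι : Type} [Fintype ι] {t : ι → ℝ} {x : ι → G}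
    (hS : ∀ f, S f = ∑ i, t i * f (x i)) {w lam : Set G → ℝ} (hw : w ∈ Pomega G) {F : Finset G}
    (hl : ∀ f, integ lam f = (F.card : ℝ)⁻¹ * ∑ g ∈ F, f g) {f : G → ℝ} {β : ℝ}
    (h : ∀ a, ∑ i, t i * ((F.card : ℝ)⁻¹ * ∑ g ∈ F, f (x i * a * g)) ≤ β) :
    step S w lam f ≤ β := by
  obtain ⟨Sw, cw, a1, a2, a3⟩ := integ_eq hw
  have e1 : step S w lam f =
      ∑ a ∈ Sw, cw a * ∑ i, t i * ((F.card : ℝ)⁻¹ * ∑ g ∈ F, f (x i * a * g)) := by
    unfold step
    rw [hS]
    simp_rw [a3, hl, Finset.mul_sum]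
    rw [Finset.sum_comm]
    refine Finset.sum_congr rfl fun a _ => Finset.sum_congr rfl fun i _ =>
      Finset.sum_congr rfl fun g _ => ?_
    ring
  rw [e1]
  calc _ ≤ ∑ a ∈ Sw, cw a * β :=
        Finset.sum_le_sum fun a _ => mul_le_mul_of_nonneg_left (h a) (a1 a)
    _ = β := by rw [← Finset.sum_mul, a2, one_mul]

theorem count_B (q k : ℕ) (p v : G) :
    ∑ g ∈ T.F (k + 1), pointMass (p * g * v) (T.B (q + 1) (k + 1)) ≤ (Nat.card (T.K k) : ℝ) := by
  classical
  have := T.finK k
  have := Fintype.ofFinite (T.K k)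
  have e : ∀ g, pointMass (p * g * v) (T.B (q + 1) (k + 1)) =
      if p * g * v ∈ T.B (q + 1) (k + 1) then 1 else 0 := by
    intro g
    split_ifs with h
    · exact pointMass_of_mem h
    · exact pointMass_of_notMem h
  simp_rw [e]
  rw [Finset.sum_boole]
  norm_cast
  rw [Nat.card_eq_fintype_card]
  rw [← Finset.card_univ]
  apply Finset.card_le_card_of_injOn
    (fun g => if h : p * g * v ∈ T.K k then (⟨p * g * v, h⟩ : T.K k) else 1)
  · intro g _
    exact Finset.mem_coe.mpr (Finset.mem_univ _)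
  · intro g hg g' hg' hgg
    rw [Finset.mem_coe, Finset.mem_filter] at hg hg'
    have h1 := T.B_sub_K q hg.2
    have h2 := T.B_sub_K q hg'.2
    simp only [h1, h2, dif_pos, Subtype.mk.injEq] at hgg
    exact mul_left_cancel (mul_right_cancel hgg)

theorem hit_measure {q m : ℕ} {ι : Type} [Fintype ι] {t : ι → ℝ} {x : ι → G}
    (ht : ∀ i, 0 ≤ t i) (hx : ∀ i, x i ∈ T.H m) {δ : ℝ} (hδ : 0 ≤ δ)
    (h : ∀ v, ∑ i, t i * pointMass (x i * v) (T.A q) ≤ δ) (z : G) :
    ∑ i, t i * pointMass (x i * z) (T.C q m) ≤ δ := by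
  by_cases hex : ∃ i, x i * z ∈ T.C q m
  · obtain ⟨i0, j0, hj0, b0, hb0, h0, hh0, e0⟩ := hex
    refine le_trans (Finset.sum_le_sum fun i _ => ?_) (h ((x i0)⁻¹ * b0))
    exact mul_le_mul_of_nonneg_left (pointMass_le fun hi =>
      T.hit (hx i) (hx i0) hj0 hb0 hh0 e0 hi) (ht i)
  · push Not at hex
    rw [Finset.sum_eq_zero fun i _ => by rw [pointMass_of_notMem (hex i), mul_zero]]
    exact hδ

theorem exists_nat_le {ε : ℝ} (hε : 0 < ε) : ∃ M : ℕ, 1 ≤ M ∧ ∀ m : ℕ, M ≤ m → 1 ≤ ε * m := by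
  obtain ⟨M, hM⟩ := exists_nat_gt (1 / ε)
  refine ⟨M + 1, by omega, fun m hm => ?_⟩
  have h1 : (M : ℝ) ≤ m := by exact_mod_cast (by omega : M ≤ m)
  have h2 : 1 / ε < m := lt_of_lt_of_le hM h1
  rw [div_lt_iff₀ hε] at h2
  linarith [mul_comm (m : ℝ) ε]

/-- The key step. -/
theorem step_small {q : ℕ} {S : (G → ℝ) → ℝ} (hS : IsStateIn Set.univ S) {δ : ℝ} (hδ : 0 ≤ δ)
    (h : ∀ v, S (fun u => pointMass (u * v) (T.A q)) ≤ δ) {ε : ℝ} (hε : 0 < ε) :
    ∃ lam : Pomega G, ∀ w : Pomega G, ∀ v,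
      step S w lam (fun u => pointMass (u * v) (T.A (q + 1))) ≤ δ + ε := by
  classical
  obtain ⟨ι, hι, t, x, ht0, ht1, -, hS4⟩ := hS
  obtain ⟨M, hM1, hM⟩ := exists_nat_le hε
  obtain ⟨m, hm1, hm2⟩ := T.exists_level (Finset.univ.image x) M
  obtain ⟨k, rfl⟩ : ∃ k, m = k + 1 := ⟨m - 1, by omega⟩
  have hx : ∀ i, x i ∈ T.H (k + 1) :=
    fun i => hm2 _ (Finset.mem_image_of_mem _ (Finset.mem_univ _))
  obtain ⟨ν, hν, hl⟩ := uniform_mem (T.F (k + 1)) (T.F_nonempty _)
  refine ⟨⟨ν, hν⟩, fun w v => step_le hS4 w.2 hl fun a => ?_⟩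
  have hcard : (0 : ℝ) < (T.F (k + 1)).card := by
    exact_mod_cast Finset.card_pos.mpr (T.F_nonempty _)
  have hinv : (0 : ℝ) ≤ ((T.F (k + 1)).card : ℝ)⁻¹ := by positivity
  have h1 : ∀ i, ∀ g, pointMass (x i * a * g * v) (T.A (q + 1)) ≤
      pointMass (x i * a * g * v) (T.B (q + 1) (k + 1)) +
      pointMass (x i * (a * g * v)) (T.C q (k + 1)) := by
    intro i g
    have e : x i * (a * g * v) = x i * a * g * v := by group
    rw [e]
    by_cases hA : x i * a * g * v ∈ T.A (q + 1)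
    · rw [pointMass_of_mem hA]
      rcases T.A_succ_sub q (k + 1) hA with hB | hC
      · rw [pointMass_of_mem hB]
        linarith [pointMass_nonneg (x i * a * g * v) (T.C q (k + 1))]
      · rw [pointMass_of_mem hC]
        linarith [pointMass_nonneg (x i * a * g * v) (T.B (q + 1) (k + 1))]
    · rw [pointMass_of_notMem hA]
      linarith [pointMass_nonneg (x i * a * g * v) (T.C q (k + 1)),
        pointMass_nonneg (x i * a * g * v) (T.B (q + 1) (k + 1))]
  have h2 : ∑ i, t i * (((T.F (k + 1)).card : ℝ)⁻¹ *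
      ∑ g ∈ T.F (k + 1), pointMass (x i * a * g * v) (T.A (q + 1))) ≤
      ∑ i, t i * (((T.F (k + 1)).card : ℝ)⁻¹ * (Nat.card (T.K k) : ℝ)) +
      ((T.F (k + 1)).card : ℝ)⁻¹ * ∑ g ∈ T.F (k + 1),
        ∑ i, t i * pointMass (x i * (a * g * v)) (T.C q (k + 1)) := by
    have e2 : ((T.F (k + 1)).card : ℝ)⁻¹ * ∑ g ∈ T.F (k + 1),
        ∑ i, t i * pointMass (x i * (a * g * v)) (T.C q (k + 1)) =
        ∑ i, t i * (((T.F (k + 1)).card : ℝ)⁻¹ * ∑ g ∈ T.F (k + 1),
          pointMass (x i * (a * g * v)) (T.C q (k + 1))) := by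
      rw [Finset.sum_comm, Finset.mul_sum]
      refine Finset.sum_congr rfl fun i _ => ?_
      rw [Finset.mul_sum, Finset.mul_sum, Finset.mul_sum]
      exact Finset.sum_congr rfl fun g _ => by ring
    rw [e2, ← Finset.sum_add_distrib]
    refine Finset.sum_le_sum fun i _ => ?_
    rw [← mul_add, ← mul_add]
    refine mul_le_mul_of_nonneg_left (mul_le_mul_of_nonneg_left ?_ hinv) (ht0 i)
    refine le_trans (Finset.sum_le_sum fun g _ => h1 i g) ?_
    rw [Finset.sum_add_distrib]
    exact add_le_add_left (T.count_B q k (x i * a) v) _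
  refine le_trans h2 ?_
  have h3 : ((T.F (k + 1)).card : ℝ)⁻¹ * ∑ g ∈ T.F (k + 1),
      ∑ i, t i * pointMass (x i * (a * g * v)) (T.C q (k + 1)) ≤ δ := by
    have : ∑ g ∈ T.F (k + 1), ∑ i, t i * pointMass (x i * (a * g * v)) (T.C q (k + 1)) ≤
        ∑ g ∈ T.F (k + 1), δ := by
      refine Finset.sum_le_sum fun g _ => T.hit_measure ht0 hx hδ (fun v' => ?_) (a * g * v)
      have := h v'
      rw [hS4] at this
      exact this
    rw [Finset.sum_const, nsmul_eq_mul] at this
    rw [inv_mul_le_iff₀ hcard]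
    exact this
  have h4 : ∑ i, t i * (((T.F (k + 1)).card : ℝ)⁻¹ * (Nat.card (T.K k) : ℝ)) ≤ ε := by
    rw [← Finset.sum_mul, ht1, one_mul, inv_mul_le_iff₀ hcard]
    have h5 := T.index k
    rw [← T.card_F] at h5
    have h6 : ((k : ℝ) + 1) * (Nat.card (T.K k) : ℝ) ≤ ((T.F (k + 1)).card : ℝ) := by
      exact_mod_cast h5
    have h7 := hM (k + 1) hm1
    push_cast at h7
    have h8 : (0 : ℝ) ≤ (Nat.card (T.K k) : ℝ) := by positivity
    calc (Nat.card (T.K k) : ℝ) ≤ (ε * (k + 1)) * (Nat.card (T.K k) : ℝ) := by nlinarith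
      _ = ε * (((k : ℝ) + 1) * (Nat.card (T.K k) : ℝ)) := by ring
      _ ≤ ε * ((T.F (k + 1)).card : ℝ) := mul_le_mul_of_nonneg_left h6 hε.le
      _ = _ := mul_comm _ _
  linarith

/-- The first step: a uniform measure on a large finite subgroup has small atoms. -/
theorem first_small {S : (G → ℝ) → ℝ} (hS : IsStateIn Set.univ S) {ε : ℝ} (hε : 0 < ε) :
    ∃ lam : Pomega G, ∀ w : Pomega G, ∀ v,
      step S w lam (fun u => pointMass (u * v) (T.A 0)) ≤ ε := by
  classical
  obtain ⟨ι, hι, t, x, ht0, ht1, -, hS4⟩ := hS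
  obtain ⟨M, hM1, hM⟩ := exists_nat_le hε
  obtain ⟨k, rfl⟩ : ∃ k, M = k + 1 := ⟨M - 1, by omega⟩
  obtain ⟨ν, hν, hl⟩ := uniform_mem (T.F (k + 1)) (T.F_nonempty _)
  refine ⟨⟨ν, hν⟩, fun w v => step_le hS4 w.2 hl fun a => ?_⟩
  have hcard : (0 : ℝ) < (T.F (k + 1)).card := by
    exact_mod_cast Finset.card_pos.mpr (T.F_nonempty _)
  have h5 := T.index k
  rw [← T.card_F] at h5
  have hKpos : 1 ≤ Nat.card (T.K k) := by
    have := T.finK k
    exact Nat.one_le_iff_ne_zero.mpr (Nat.card_pos.ne')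
  have h6 : ((k : ℝ) + 1) ≤ ((T.F (k + 1)).card : ℝ) := by
    have : (k + 1) * 1 ≤ (T.F (k + 1)).card := le_trans (Nat.mul_le_mul_left _ hKpos) h5
    rw [mul_one] at this
    exact_mod_cast this
  have h7 := hM (k + 1) le_rfl
  push_cast at h7
  have hone : ∀ p : G, ∑ g ∈ T.F (k + 1), pointMass (p * g * v) (T.A 0) ≤ 1 := by
    intro p
    have e : ∀ g, pointMass (p * g * v) (T.A 0) ≤ if g = p⁻¹ * v⁻¹ then 1 else 0 := by
      intro g
      by_cases hg : p * g * v ∈ T.A 0
      · rw [if_pos]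
        · exact pointMass_le_one _ _
        · rw [T.A_zero] at hg
          have : g = p⁻¹ * (p * g * v) * v⁻¹ := by group
          rw [this, hg, mul_one]
      · rw [pointMass_of_notMem hg]
        split_ifs <;> norm_num
    refine le_trans (Finset.sum_le_sum fun g _ => e g) ?_
    rw [Finset.sum_ite_eq']
    split_ifs <;> norm_num
  calc ∑ i, t i * (((T.F (k + 1)).card : ℝ)⁻¹ *
        ∑ g ∈ T.F (k + 1), pointMass (x i * a * g * v) (T.A 0))
      ≤ ∑ i, t i * (((T.F (k + 1)).card : ℝ)⁻¹ * 1) := by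
        refine Finset.sum_le_sum fun i _ => mul_le_mul_of_nonneg_left
          (mul_le_mul_of_nonneg_left (hone (x i * a)) (by positivity)) (ht0 i)
    _ = ((T.F (k + 1)).card : ℝ)⁻¹ := by rw [← Finset.sum_mul, ht1, one_mul, mul_one]
    _ ≤ ε := by
        rw [inv_le_iff_one_le_mul₀ hcard]
        exact h7.trans (mul_le_mul_of_nonneg_left h6 hε.le)

theorem val_le (r : ℕ) : ∀ (q : ℕ) (S : (G → ℝ) → ℝ) (δ : ℝ), IsStateIn Set.univ S → 0 ≤ δ →
    (∀ v, S (fun u => pointMass (u * v) (T.A q)) ≤ δ) → val (T.A (q + r)) r S ≤ δ := by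
  induction r with
  | zero =>
    intro q S δ _ _ h
    have := h 1
    simp only [mul_one] at this
    exact this
  | succ r ih =>
    intro q S δ hS hδ h
    refine le_of_forall_pos_le_add fun ε hε => ?_
    obtain ⟨lam, hlam⟩ := T.step_small hS hδ h hε
    refine val_succ_le hS lam fun w => ?_
    have := ih (q + 1) (step S w lam) (δ + ε) (step_state hS w.2 lam.2) (by linarith) (hlam w)
    rwa [show q + 1 + r = q + (r + 1) by ring] at this

theorem val_nonpos (r : ℕ) (S : (G → ℝ) → ℝ) (hS : IsStateIn Set.univ S) :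
    val (T.A r) (r + 1) S ≤ 0 := by
  refine le_of_forall_pos_le_add fun ε hε => ?_
  obtain ⟨lam, hlam⟩ := T.first_small hS hε
  refine val_succ_le hS lam fun w => ?_
  have := T.val_le r 0 (step S w lam) ε (step_state hS w.2 lam.2) hε.le (hlam w)
  rw [zero_add] at this
  linarith

theorem val_nonpos' (r d : ℕ) : ∀ (S : (G → ℝ) → ℝ), IsStateIn Set.univ S →
    val (T.A r) (r + 1 + d) S ≤ 0 := by
  induction d with
  | zero => exact fun S hS => T.val_nonpos r S hS
  | succ d ih =>
    intro S hS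
    exact val_succ_le hS ⟨pointMass 1, pointMass_mem 1⟩ fun w =>
      ih _ (step_state hS w.2 (pointMass_mem 1))

theorem one_le_val (r : ℕ) : ∀ (q k : ℕ) (S : (G → ℝ) → ℝ), IsStateIn (T.B q k) S →
    1 ≤ val (T.A (q + r)) r S := by
  induction r with
  | zero =>
    intro q k S hS
    obtain ⟨ι, hι, t, x, ht0, ht1, hx, hS4⟩ := hS
    show 1 ≤ S _
    rw [hS4, ← ht1]
    refine Finset.sum_le_sum fun i _ => ?_
    rw [pointMass_of_mem (show x i ∈ T.A (q + 0) from ⟨k, hx i⟩), mul_one]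
  | succ r ih =>
    intro q k S hS
    refine le_val_succ hS.univ fun lam => ?_
    obtain ⟨Sl, cl, b1, b2, b3⟩ := integ_eq lam.2
    obtain ⟨j, hj1, hj2⟩ := T.exists_level Sl k
    refine ⟨⟨pointMass (T.y j), pointMass_mem _⟩, ?_⟩
    have hst : IsStateIn (T.B (q + 1) (j + 1)) (step S (pointMass (T.y j)) lam) := by
      refine step_state' hS (Sw := {T.y j}) (cw := fun _ => 1) (Y := {T.y j}) (Z := T.H j)
        (fun _ => zero_le_one) (by simp) (fun f => by rw [integ_pointMass]; simp)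
        (fun g hg => by simpa using hg) b1 b2 b3 hj2 ?_
      rintro b hb a rfl g hg
      exact ⟨j, Nat.lt_succ_self j, b, T.B_mono q hj1 hb, g, hg, rfl⟩
    have := ih (q + 1) (j + 1) _ hst
    rwa [show q + 1 + r = q + (r + 1) by ring] at this

/-- Evaluation at the neutral element. -/
theorem eval_state : IsStateIn (T.B 0 0) (fun f : G → ℝ => f 1) :=
  ⟨Unit, inferInstance, fun _ => 1, fun _ => 1, fun _ => zero_le_one, by simp,
    fun _ => rfl, fun f => by simp⟩

include T in
/-- The functions `A ↦ val A (r + 1) (evaluation at 1)` are pairwise different. -/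
theorem val_injective : Function.Injective
    (fun (r : ℕ) (A : Set G) => val A (r + 1) (fun f : G → ℝ => f 1)) := by
  have key : ∀ r s : ℕ, r < s → (fun (A : Set G) => val A (r + 1) (fun f : G → ℝ => f 1)) ≠
      fun (A : Set G) => val A (s + 1) (fun f : G → ℝ => f 1) := by
    intro r s hrs h
    have h1 := congrFun h (T.A (r + 1))
    have h2 := T.one_le_val (r + 1) 0 0 _ T.eval_state
    rw [zero_add] at h2
    have h3 := T.val_nonpos' (r + 1) (s - r - 1) _ T.eval_state.univ
    rw [show r + 1 + 1 + (s - r - 1) = s + 1 by omega] at h3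
    linarith
  intro r s h
  rcases lt_trichotomy r s with h1 | h1 | h1
  · exact absurd h (key r s h1)
  · exact h1
  · exact absurd h.symm (key s r h1)

include T in
/-- The union of a chain of finite subgroups is amenable. -/
theorem amenable : IsAmenable G := by
  classical
  let u : Set G → ℕ → ℝ := fun A n => ((T.F n).card : ℝ)⁻¹ * ∑ g ∈ T.F n, pointMass g A
  have hcard : ∀ n, (0 : ℝ) < (T.F n).card := fun n => by
    exact_mod_cast Finset.card_pos.mpr (T.F_nonempty n)
  have hu0 : ∀ A n, 0 ≤ u A n := fun A n =>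
    mul_nonneg (inv_nonneg.mpr (hcard n).le) (Finset.sum_nonneg fun g _ => pointMass_nonneg g A)
  have hmono : ∀ A B : Set G, A ⊆ B → ∀ n, u A n ≤ u B n := fun A B hAB n =>
    mul_le_mul_of_nonneg_left (Finset.sum_le_sum fun g _ => pointMass_le fun h => hAB h)
      (inv_nonneg.mpr (hcard n).le)
  have huniv : ∀ n, u Set.univ n = 1 := by
    intro n
    show ((T.F n).card : ℝ)⁻¹ * ∑ g ∈ T.F n, pointMass g Set.univ = 1
    rw [Finset.sum_congr rfl fun g _ => pointMass_of_mem (Set.mem_univ g), Finset.sum_const,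
      nsmul_eq_mul, mul_one]
    exact inv_mul_cancel₀ (hcard n).ne'
  have hempty : ∀ n, u ∅ n = 0 := by
    intro n
    show ((T.F n).card : ℝ)⁻¹ * ∑ g ∈ T.F n, pointMass g ∅ = 0
    rw [Finset.sum_eq_zero fun g _ => pointMass_of_notMem (Set.notMem_empty g), mul_zero]
  have hu1 : ∀ A n, u A n ≤ 1 := fun A n => by
    rw [← huniv n]; exact hmono A _ (Set.subset_univ A) n
  have hadd : ∀ A B : Set G, Disjoint A B → ∀ n, u (A ∪ B) n = u A n + u B n := by
    intro A B hAB n
    show ((T.F n).card : ℝ)⁻¹ * _ = ((T.F n).card : ℝ)⁻¹ * _ + ((T.F n).card : ℝ)⁻¹ * _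
    rw [← mul_add, ← Finset.sum_add_distrib]
    congr 1
    refine Finset.sum_congr rfl fun g _ => ?_
    by_cases hA : g ∈ A
    · have hB : g ∉ B := fun h => (Set.disjoint_left.mp hAB hA) h
      rw [pointMass_of_mem (A := A ∪ B) (Or.inl hA), pointMass_of_mem hA, pointMass_of_notMem hB,
        add_zero]
    · by_cases hB : g ∈ B
      · rw [pointMass_of_mem (A := A ∪ B) (Or.inr hB), pointMass_of_mem hB,
          pointMass_of_notMem hA, zero_add]
      · rw [pointMass_of_notMem (A := A ∪ B) (fun h => h.elim hA hB), pointMass_of_notMem hA,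
          pointMass_of_notMem hB, zero_add]
  have hlim : ∀ A, ∃ L ∈ Set.Icc (0 : ℝ) 1,
      Filter.Tendsto (u A) (Filter.hyperfilter ℕ : Filter ℕ) (nhds L) := by
    intro A
    exact isCompact_Icc.ultrafilter_le_nhds ((Filter.hyperfilter ℕ).map (u A))
      (Filter.le_principal_iff.mpr (Filter.mem_map.mpr (Filter.Eventually.of_forall fun n =>
        (⟨hu0 A n, hu1 A n⟩ : u A n ∈ Set.Icc (0 : ℝ) 1))))
  choose μ hμ1 hμ2 using hlim
  refine ⟨μ, ⟨fun A => (hμ1 A).1, fun A => (hμ1 A).2, fun A B hAB => ?_, ?_, ?_,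
    fun A B hAB => ?_⟩, fun g A => ?_⟩
  · exact le_of_tendsto_of_tendsto' (hμ2 A) (hμ2 B) (hmono A B hAB)
  · exact tendsto_nhds_unique (hμ2 ∅) (tendsto_const_nhds.congr fun n => (hempty n).symm)
  · exact tendsto_nhds_unique (hμ2 Set.univ) (tendsto_const_nhds.congr fun n => (huniv n).symm)
  · exact tendsto_nhds_unique (hμ2 (A ∪ B))
      (((hμ2 A).add (hμ2 B)).congr fun n => (hadd A B hAB n).symm)
  · obtain ⟨k, hk⟩ := T.union g
    refine tendsto_nhds_unique_of_eventuallyEq (hμ2 _) (hμ2 A) ?_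
    have hev : ∀ᶠ n in (Filter.hyperfilter ℕ : Filter ℕ), k ≤ n :=
      (Nat.hyperfilter_le_atTop) (Filter.eventually_ge_atTop k)
    filter_upwards [hev] with n hn
    have hg : g ∈ T.H n := T.mono hn hk
    show ((T.F n).card : ℝ)⁻¹ * _ = ((T.F n).card : ℝ)⁻¹ * _
    congr 1
    refine Finset.sum_nbij' (fun x => g⁻¹ * x) (fun x => g * x) ?_ ?_ ?_ ?_ ?_
    · intro x hx
      exact T.mem_F.mpr ((T.H n).mul_mem ((T.H n).inv_mem hg) (T.mem_F.mp hx))
    · intro x hx
      exact T.mem_F.mpr ((T.H n).mul_mem hg (T.mem_F.mp hx))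
    · intro x _; group
    · intro x _; group
    · intro x _
      apply pointMass_congr
      constructor
      · rintro ⟨a, ha, e⟩
        have : g⁻¹ * x = a := by rw [← e]; group
        rw [this]; exact ha
      · intro h
        exact ⟨g⁻¹ * x, h, by group⟩

end Tower

/-! ### The words -/

section words

variable {G : Type} [Group G]

/-- The word `i s i s ⋯ i s`. -/
def alt (r : ℕ) : Fin (2 * r) → Letter := fun j => if j.1 % 2 = 0 then Letter.i else Letter.s

/-- The permutation `2, 1, 4, 3, …, 2r, 2r - 1`. -/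
def sw (r : ℕ) : Fin (2 * r) → Fin (2 * r) := fun j =>
  ⟨if j.1 % 2 = 0 then j.1 + 1 else j.1 - 1, by have := j.2; split_ifs <;> omega⟩

theorem sw_involutive (r : ℕ) : Function.Involutive (sw r) := by
  intro j
  apply Fin.ext
  simp only [sw]
  have := j.2
  split_ifs <;> omega

/-- The permutation `2, 1, 4, 3, …, 2r, 2r - 1` as a permutation. -/
def swPerm (r : ℕ) : Equiv.Perm (Fin (2 * r)) := (sw_involutive r).toPerm

theorem prodList_cons {ν : Set G → ℝ} (hν : ν ∈ Pomega G) (l : List (Set G → ℝ)) :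
    prodList (ν :: l) = conv ν (prodList l) := by
  cases l with
  | nil => exact (conv_pointMass_one hν).symm
  | cons ν' l => rfl

theorem transl_transl (u a g : G) (A : Set G) :
    transl g (transl a (transl u A)) = transl (u * a * g) A := by
  ext x
  show u * (a * (g * x)) ∈ A ↔ u * a * g * x ∈ A
  rw [show u * (a * (g * x)) = u * a * g * x by group]

theorem applyWord_alt (A : Set G) (r : ℕ) : ∀ S : (G → ℝ) → ℝ,
    applyWord G (2 * r) (alt r) (fun ν => S fun u =>
      prodList (List.ofFn fun j => ν (sw r j)) (transl u A)) = val A r S := by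
  induction r with
  | zero =>
    intro S
    show S (fun u => pointMass 1 (transl u A)) = S (fun u => pointMass u A)
    congr 1
    funext u
    exact pointMass_congr (by show u * 1 ∈ A ↔ u ∈ A; rw [mul_one])
  | succ r ih =>
    intro S
    show (⨅ lam : Pomega G, ⨆ w : Pomega G, applyWord G (2 * r) _ _) =
      ⨅ lam : Pomega G, ⨆ w : Pomega G, val A r (step S w lam)
    congr 1
    funext lam
    congr 1
    funext w
    rw [← ih (step S w lam)]
    congr 1
    · funext j
      show (if (j.1 + 1 + 1) % 2 = 0 then Letter.i else Letter.s) =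
        if j.1 % 2 = 0 then Letter.i else Letter.s
      rw [show (j.1 + 1 + 1) % 2 = j.1 % 2 by omega]
    · funext νs
      have hlist : (List.ofFn fun j : Fin (2 * (r + 1)) =>
          (Fin.cons lam.1 (Fin.cons w.1 νs : Fin (2 * r + 1) → Set G → ℝ) :
            Fin (2 * r + 1 + 1) → Set G → ℝ) (sw (r + 1) j)) =
          w.1 :: lam.1 :: List.ofFn fun j => νs (sw r j) := by
        show (List.ofFn fun j : Fin (2 * r + 1 + 1) =>
          (Fin.cons lam.1 (Fin.cons w.1 νs : Fin (2 * r + 1) → Set G → ℝ) :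
            Fin (2 * r + 1 + 1) → Set G → ℝ) (sw (r + 1) j)) = _
        rw [List.ofFn_succ, List.ofFn_succ]
        congr 2
        apply List.ofFn_inj.mpr
        funext j
        have : sw (r + 1) (j.succ.succ : Fin (2 * r + 1 + 1)) = (sw r j).succ.succ := by
          apply Fin.ext
          show (if (j.1 + 1 + 1) % 2 = 0 then j.1 + 1 + 1 + 1 else j.1 + 1 + 1 - 1) =
            (if j.1 % 2 = 0 then j.1 + 1 else j.1 - 1) + 1 + 1
          have := j.2
          split_ifs <;> omega
        rw [this]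
        rfl
      unfold step
      show S (fun u => prodList (List.ofFn fun j : Fin (2 * (r + 1)) =>
          (Fin.cons lam.1 (Fin.cons w.1 νs : Fin (2 * r + 1) → Set G → ℝ) :
            Fin (2 * r + 1 + 1) → Set G → ℝ) (sw (r + 1) j)) (transl u A)) = S _
      congr 1
      funext u
      rw [hlist, prodList_cons w.2, prodList_cons lam.2]
      show integ w.1 (fun a => integ lam.1 fun g => _) = integ w.1 (fun a => integ lam.1 fun g => _)
      simp only [transl_transl]

theorem extremalDensity_alt (A : Set G) (r : ℕ) :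
    extremalDensity (alt r) (swPerm r) A = val A r (fun f : G → ℝ => f 1) := by
  rw [← applyWord_alt A r]
  unfold extremalDensity
  congr 1
  funext ν
  have : transl 1 A = A := by
    ext x
    show 1 * x ∈ A ↔ x ∈ A
    rw [one_mul]
  simp only [this]
  rfl

theorem extremalDensity_mem (r : ℕ) :
    extremalDensity (G := G) (alt (r + 1)) (swPerm (r + 1)) ∈ extremalDensities G := by
  refine ⟨2 * r + 1, alt (r + 1), swPerm (r + 1), ?_, rfl⟩
  rintro j (h | h)
  · exfalso
    unfold alt at h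
    split_ifs at h
  · exfalso
    unfold alt at h
    split_ifs at h

theorem Tower.infinite (T : Tower G) : (extremalDensities G).Infinite := by
  refine Set.infinite_of_injective_forall_mem (f := fun r : ℕ =>
    extremalDensity (G := G) (alt (r + 1)) (swPerm (r + 1))) ?_ extremalDensity_mem
  have : (fun r : ℕ => extremalDensity (G := G) (alt (r + 1)) (swPerm (r + 1))) =
      fun (r : ℕ) (A : Set G) => val A (r + 1) (fun f : G → ℝ => f 1) := by
    funext r A
    exact extremalDensity_alt A (r + 1)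
  rw [this]
  exact T.val_injective

end words

/-! ### The finitary symmetric group -/

/-- The group of the permutations of `ℕ` which move only finitely many points. -/
def finitary : Subgroup (Equiv.Perm ℕ) where
  carrier := {σ | ∃ n, ∀ x, n ≤ x → σ x = x}
  one_mem' := ⟨0, fun _ _ => rfl⟩
  mul_mem' := by
    rintro σ τ ⟨n, hn⟩ ⟨m, hm⟩
    refine ⟨max n m, fun x hx => ?_⟩
    rw [Equiv.Perm.mul_apply, hm x (le_trans (le_max_right _ _) hx),
      hn x (le_trans (le_max_left _ _) hx)]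
  inv_mem' := by
    rintro σ ⟨n, hn⟩
    refine ⟨n, fun x hx => ?_⟩
    rw [Equiv.Perm.inv_eq_iff_eq, hn x hx]

/-- The permutations fixing all `x ≥ n`. -/
def fixSub (n : ℕ) : Subgroup finitary where
  carrier := {σ | ∀ x, n ≤ x → σ.1 x = x}
  one_mem' := fun _ _ => rfl
  mul_mem' := by
    intro σ τ hσ hτ x hx
    show σ.1 (τ.1 x) = x
    rw [hτ x hx, hσ x hx]
  inv_mem' := by
    intro σ hσ x hx
    show (σ.1)⁻¹ x = x
    rw [Equiv.Perm.inv_eq_iff_eq, hσ x hx]

theorem mem_fixSub {n : ℕ} {σ : finitary} : σ ∈ fixSub n ↔ ∀ x, n ≤ x → σ.1 x = x := Iff.rfl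

theorem fixSub_lt {n : ℕ} {σ : finitary} (hσ : σ ∈ fixSub n) {x : ℕ} (hx : x < n) :
    σ.1 x < n := by
  by_contra h
  push Not at h
  have h1 := hσ _ h
  have h2 : σ.1 x = x := σ.1.injective h1
  omega

theorem fixSub_mono {m n : ℕ} (h : m ≤ n) : fixSub m ≤ fixSub n :=
  fun _ hσ x hx => hσ x (le_trans h hx)

instance finite_fixSub (n : ℕ) : Finite (fixSub n) := by
  refine Finite.of_injective
    (fun σ : fixSub n => fun i : Fin n => (⟨σ.1.1 i, fixSub_lt σ.2 i.2⟩ : Fin n)) ?_
  intro σ τ h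
  apply Subtype.ext
  apply Subtype.ext
  apply Equiv.ext
  intro x
  by_cases hx : x < n
  · have := congrFun h ⟨x, hx⟩
    exact congrArg Fin.val this
  · rw [σ.2 x (by omega), τ.2 x (by omega)]

/-- The involution interchanging the blocks `[0, a)` and `[a, 2a)`. -/
def blockSwap (a : ℕ) : Equiv.Perm ℕ :=
  Function.Involutive.toPerm (fun x => if x < a then x + a else if x < 2 * a then x - a else x)
    (by
      intro x
      simp only
      split_ifs <;> omega)

theorem blockSwap_apply (a x : ℕ) :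
    blockSwap a x = if x < a then x + a else if x < 2 * a then x - a else x := rfl

/-- `blockSwap` as an element of the finitary symmetric group. -/
def yElt (a : ℕ) : finitary := ⟨blockSwap a, 2 * a, fun x hx => by
  rw [blockSwap_apply, if_neg (by omega), if_neg (by omega)]⟩

theorem yElt_sq (a : ℕ) : yElt a * yElt a = 1 := by
  apply Subtype.ext
  apply Equiv.ext
  intro x
  show blockSwap a (blockSwap a x) = x
  rw [blockSwap_apply, blockSwap_apply]
  split_ifs <;> omega

/-- The transposition of `i` and `j` in the finitary symmetric group. -/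
def swapElt (i j : ℕ) : finitary := ⟨Equiv.swap i j, i + j + 1, fun x hx => by
  rw [Equiv.swap_apply_of_ne_of_ne (by omega) (by omega)]⟩

theorem index_ineq (n m : ℕ) (h : m ≤ n) :
    (n + 1) * Nat.card (fixSub m) ≤ Nat.card (fixSub (n + 1)) := by
  have h1 : Nat.card (Fin (n + 1) × fixSub m) = (n + 1) * Nat.card (fixSub m) := by
    rw [Nat.card_prod, Nat.card_fin]
  rw [← h1]
  refine Nat.card_le_card_of_injective (fun z : Fin (n + 1) × fixSub m =>
    (⟨swapElt z.1 n * z.2.1, ?_⟩ : fixSub (n + 1))) ?_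
  · refine (fixSub (n + 1)).mul_mem ?_ (fixSub_mono (by omega) z.2.2)
    intro x hx
    have := z.1.2
    show Equiv.swap _ _ x = x
    rw [Equiv.swap_apply_of_ne_of_ne (by omega) (by omega)]
  · rintro ⟨i, κ⟩ ⟨i', κ'⟩ he
    have he' : swapElt i n * κ.1 = swapElt i' n * κ'.1 := congrArg Subtype.val he
    have hn : Equiv.swap (i : ℕ) n (κ.1.1 n) = Equiv.swap (i' : ℕ) n (κ'.1.1 n) :=
      congrArg (fun g : finitary => g.1 n) he'
    rw [κ.2 n h, κ'.2 n h, Equiv.swap_apply_right, Equiv.swap_apply_right] at hn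
    have hi : i = i' := Fin.ext hn
    subst hi
    have := mul_left_cancel he'
    rw [Subtype.ext this]

/-- The tower in the finitary symmetric group. -/
def tower : Tower finitary where
  H k := fixSub (3 ^ k)
  K k := fixSub (2 * 3 ^ k)
  y k := yElt (3 ^ k)
  finH k := finite_fixSub _
  union := by
    rintro ⟨σ, n, hn⟩
    refine ⟨n, fun x hx => hn x ?_⟩
    exact le_trans (Nat.lt_pow_self (by norm_num)).le hx
  HK k := fixSub_mono (by omega)
  KH k := fixSub_mono (by rw [pow_succ]; omega)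
  yK k := by
    intro x hx
    show blockSwap _ x = x
    rw [blockSwap_apply, if_neg (by omega), if_neg (by omega)]
  yH k := by
    intro h
    have hpos : 0 < 3 ^ k := by positivity
    have h1 : blockSwap (3 ^ k) (3 ^ k) = 3 ^ k := h (3 ^ k) le_rfl
    rw [blockSwap_apply, if_neg (by omega), if_pos (by omega)] at h1
    omega
  ymal k := by
    intro g hg h
    apply Subtype.ext
    apply Equiv.ext
    intro x
    show g.1 x = x
    by_cases hx : x < 3 ^ k
    · have h1 := h (3 ^ k + x) (by omega)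
      have hinv : (yElt (3 ^ k))⁻¹ = yElt (3 ^ k) := inv_eq_of_mul_eq_one_right (yElt_sq _)
      rw [hinv] at h1
      have h2 : blockSwap (3 ^ k) (g.1 (blockSwap (3 ^ k) (3 ^ k + x))) = 3 ^ k + x := h1
      have h3 : blockSwap (3 ^ k) (3 ^ k + x) = x := by
        rw [blockSwap_apply, if_neg (by omega), if_pos (by omega)]
        omega
      rw [h3, blockSwap_apply, if_pos (fixSub_lt hg hx)] at h2
      omega
    · exact hg x (by omega)
  index k := by
    have h1 : 2 * 3 ^ k ≤ 3 ^ (k + 1) - 1 := by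
      have hpos : 0 < 3 ^ k := by positivity
      rw [pow_succ]
      omega
    have h2 : k + 1 ≤ 3 ^ (k + 1) := (Nat.lt_pow_self (by norm_num)).le
    have h3 := index_ineq (3 ^ (k + 1) - 1) (2 * 3 ^ k) h1
    rw [Nat.sub_add_cancel (by omega)] at h3
    exact le_trans (Nat.mul_le_mul_right _ h2) h3

/-- **The answer to Q1 is negative.**  There is an amenable group (the group of the permutations of
`ℕ` that move only finitely many points) on which there are infinitely many extremal densities. -/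
theorem result : IsAmenable finitary ∧ (extremalDensities finitary).Infinite :=
  ⟨tower.amenable, tower.infinite⟩

end Pool.Agent.Results.MP_5c8a88_co.InfinitelyMany
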